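import Mathlib
import Pool.Agent.Lib.MP_ec0ede_nt_EN.Defs4
import Pool.Agent.Lib.MP_ec0ede_nt_EN.EpsA
import Pool.Agent.Lib.MP_ec0ede_nt_EN.Lim
import Pool.Agent.Lib.MP_ec0ede_nt_EN.App
import Pool.Agent.Lib.MP_ec0ede_nt_EN.PosF
import Pool.Agent.Lib.MP_ec0ede_nt_EN2.Defs
import Pool.Agent.Lib.MP_ec0ede_nt_EN2.DefsC
import Pool.Agent.Lib.MP_ec0ede_nt_EN2.Fin2
import Pool.Agent.Lib.MP_ec0ede_nt_EN2.FinAB

set_option autoImplicit false

/-!
# MP_ec0ede_nt: explicit asymptotic formula for the density of the integers with a divisor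
in (N/2, N]

`IsDens N e` says that `e` is the natural density of the integers with a divisor in `(N/2, N]`.
With `δ = 1 - (1 + log log 2) / log 2`, `z = 1 / log 2`, `κ = log z / log 2` and the explicit
functions `Ξ K S t` below the theorem says:

* the density `ε N` is asymptotic to `(log N)^(-δ) (log log N)^(-3/2) Ξ (K N) (S N) (x N)`,
  `x N = log log N / log 2`, for all `K N, S N → ∞`;
* `Ξ K S` converges uniformly (as `K, S → ∞`) to a continuous positive function `Φ` of period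
  one, so `ε N` is asymptotic to `(log N)^(-δ) (log log N)^(-3/2) Φ (x N)`;
* the mean value of `Φ` is `c = (log 2)^(3/2) √(2/π) Γ(1-κ) / (κ log 2) * (A * B)`, where `A` and
  `B` are the limits of the explicit sequences `cA K` and `cB S`, and `|Φ t - c| ≤ 7 * 10^(-7) c`.
-/

noncomputable section

namespace Pool.Agent.Results.MP_ec0ede_nt.Explicit

open Real Filter Topology Finset

open Classical in
/-- `1` if `p` holds, `0` otherwise -/
def one (p : Prop) : ℝ := if p then 1 else 0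

/-- the exponent `δ` -/
def δ : ℝ := 1 - (1 + Real.log (Real.log 2)) / Real.log 2

/-- `z = 1 / log 2` -/
def z : ℝ := 1 / Real.log 2

/-- `κ = log z / log 2 = 0.5287...` -/
def κ : ℝ := Real.log z / Real.log 2

/-- `n` has a divisor in `(N / 2, N]` -/
def HasDivisor (N n : ℕ) : Prop := ∃ d, d ∣ n ∧ N < 2 * d ∧ d ≤ N

open Classical in
/-- `e` is the natural density of the integers with a divisor in `(N / 2, N]` -/
def IsDensity (N : ℕ) (e : ℝ) : Prop :=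
  Tendsto (fun x : ℕ => (((Icc 1 x).filter fun n => HasDivisor N n).card : ℝ) / x) atTop (𝓝 e)

/-- `a` is positive and all its primes are at most `exp (2 ^ K)` -/
def Smooth (K a : ℕ) : Prop := a ≠ 0 ∧ ∀ p, p.Prime → p ∣ a → p ≤ ⌊Real.exp (2 ^ K)⌋₊

/-- the number of primes dividing `a` -/
def ω (a : ℕ) : ℕ := a.primeFactors.card

/-- the length of the union of the intervals `[log d, log d + log 2)`, `d ∣ a` -/
def L (a : ℕ) : ℝ := (MeasureTheory.volume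
  {t : ℝ | ∃ d ∈ a.divisors, Real.log d ≤ t ∧ t < Real.log d + Real.log 2}).toReal

/-- the number of subsets `I` with `2 ^ S - 1 < ∑ i ∈ I, 2 ^ v i ≤ 2 ^ S` -/
def R (S : ℕ) {k : ℕ} (v : Fin k → ℝ) : ℝ :=
  ∑ I : Finset (Fin k), one ((2 : ℝ) ^ S - 1 < ∑ i ∈ I, (2 : ℝ) ^ v i ∧
    ∑ i ∈ I, (2 : ℝ) ^ v i ≤ (2 : ℝ) ^ S)

/-- the sum over `k` of `(log 2) ^ k / k!` times the integral of `g (R S v)` over `[0, S] ^ k` -/
def E (S : ℕ) (g : ℝ → ℝ) : ℝ :=
  ∑' k : ℕ, (Real.log 2) ^ k / (k.factorial : ℝ) *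
    ∫ v in Set.Icc (0 : Fin k → ℝ) (fun _ => (S : ℝ)), g (R S v)

/-- `(2 / e) ^ K` times the product of `1 - 1 / p` over the primes `p ≤ exp (2 ^ K)` -/
def P (K : ℕ) : ℝ :=
  (2 / Real.exp 1) ^ K * ∏ p ∈ Nat.primesLE ⌊Real.exp (2 ^ K)⌋₊, (1 - 1 / (p : ℝ))

/-- the explicit approximations of the periodic function -/
def Ξ (K S : ℕ) (t : ℝ) : ℝ :=
  (Real.log 2) ^ (3 / 2 : ℝ) * √(2 / π) * P K * (z / Real.exp 1) ^ S *
    ∑' a : ℕ, one (Smooth K a) / (a : ℝ) * z ^ ω a * max 0 ((K : ℝ) - ω a) *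
      ∑' m : ℤ, max 0 (t + m) * z ^ (t + m) *
        E S (fun r => 1 - Real.exp (-((2 : ℝ) ^ (-(t + m) - ω a) * L a * r)))

/-- the constant of the small primes -/
def cA (K : ℕ) : ℝ :=
  P K * ∑' a : ℕ, one (Smooth K a) / (a : ℝ) * max 0 ((K : ℝ) - ω a) * (L a) ^ κ

/-- the constant of the large primes -/
def cB (S : ℕ) : ℝ :=
  (z / Real.exp 1) ^ S * E S (fun r => max 0 (Real.log r / Real.log 2) * r ^ κ)

/-- the constant as a function of `A` and `B` -/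
def cst (A B : ℝ) : ℝ :=
  (Real.log 2) ^ (3 / 2 : ℝ) * √(2 / π) * (Real.Gamma (1 - κ) / (κ * Real.log 2)) * (A * B)

theorem Xi_eq (K S : ℕ) (t : ℝ) : Pool.Agent.EN2.Xi K S t = Ξ K S t := by
  unfold Pool.Agent.EN2.Xi Ξ P
  rw [mul_assoc _ ((2 / Real.exp 1) ^ K) _]
  rfl

theorem cA_eq (K : ℕ) : Pool.Agent.EN2.AK K = cA K := rfl

theorem cB_eq (S : ℕ) : Pool.Agent.EN2.BS S = cB S := rfl

theorem ratio (A V : ℕ → ℝ) {c : ℝ} (hc : 0 < c) (hV : ∀ᶠ N in atTop, c ≤ V N)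
    (h : Tendsto (fun N => A N - V N) atTop (𝓝 0)) :
    Tendsto (fun N => A N / V N) atTop (𝓝 1) := by
  have h1 : Tendsto (fun N : ℕ => (A N - V N) / V N) atTop (𝓝 0) := by
    rw [tendsto_zero_iff_abs_tendsto_zero]
    have h2 : Tendsto (fun N : ℕ => |A N - V N| / c) atTop (𝓝 0) := by
      have := (tendsto_zero_iff_abs_tendsto_zero _).1 h
      simpa using this.div_const c
    refine squeeze_zero' (Eventually.of_forall fun N => abs_nonneg _) ?_ h2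
    filter_upwards [hV] with N hN
    show |(A N - V N) / V N| ≤ |A N - V N| / c
    rw [abs_div]
    exact div_le_div_of_nonneg_left (abs_nonneg _) hc (hN.trans (le_abs_self _))
  have h2 := h1.const_add 1
  rw [add_zero] at h2
  refine h2.congr' ?_
  filter_upwards [hV] with N hN
  have hx : V N ≠ 0 := (lt_of_lt_of_le hc hN).ne'
  field_simp
  ring

theorem final (e : ℕ → ℝ) (he : ∀ N, IsDensity N (e N)) (V : ℕ → ℝ)
    (h : Tendsto (fun N => Pool.Agent.EN.AA N / V N) atTop (𝓝 1)) :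
    Tendsto (fun N : ℕ => e N / ((Real.log N) ^ (-δ) * (Real.log (Real.log N)) ^ (-3 / 2 : ℝ) *
        V N)) atTop (𝓝 1) := by
  have he' : ∀ N, e N = Pool.Agent.EN.eps N := fun N =>
    Pool.Agent.EN.isDens_unique (he N) (Pool.Agent.EN.eps_isDens N)
  have hll : Tendsto (fun N : ℕ => Real.log (Real.log N)) atTop atTop :=
    Real.tendsto_log_atTop.comp (Real.tendsto_log_atTop.comp tendsto_natCast_atTop_atTop)
  have hl1 : Tendsto (fun N : ℕ => Real.log N) atTop atTop :=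
    Real.tendsto_log_atTop.comp tendsto_natCast_atTop_atTop
  refine h.congr' ?_
  filter_upwards [hll.eventually_gt_atTop 0, hl1.eventually_gt_atTop 0] with N h1 h2
  have e1 : (Real.log N) ^ (-δ) = ((Real.log N) ^ Pool.Agent.EN.dl)⁻¹ := Real.rpow_neg h2.le _
  have e2 : (Real.log (Real.log N)) ^ (-3 / 2 : ℝ) =
      ((Real.log (Real.log N)) ^ (3 / 2 : ℝ))⁻¹ := by
    rw [show (-3 / 2 : ℝ) = -(3 / 2) by ring]; exact Real.rpow_neg h1.le _
  rw [he' N, e1, e2]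
  have p1 : 0 < (Real.log N) ^ Pool.Agent.EN.dl := Real.rpow_pos_of_pos h2 _
  have p2 : 0 < (Real.log (Real.log N)) ^ (3 / 2 : ℝ) := Real.rpow_pos_of_pos h1 _
  unfold Pool.Agent.EN.AA
  rcases eq_or_ne (V N) 0 with hV | hV
  · rw [hV]; simp
  · field_simp

theorem result :
    ∃ (Φ : ℝ → ℝ) (A B : ℝ), Continuous Φ ∧ (∀ x, Φ (x + 1) = Φ x) ∧ (∀ x, 0 < Φ x) ∧
    (∀ e : ℝ, 0 < e → ∃ K0 : ℕ, ∀ K ≥ K0, ∀ S ≥ K0, ∀ t : ℝ, |Φ t - Ξ K S t| ≤ e) ∧
    0 < A ∧ 0 < B ∧ Tendsto cA atTop (𝓝 A) ∧ Tendsto cB atTop (𝓝 B) ∧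
    ∫ x in (0 : ℝ)..1, Φ x = cst A B ∧
    (∀ t, |Φ t - cst A B| ≤ 7 / 10000000 * cst A B) ∧
    ∀ ε : ℕ → ℝ, (∀ N, IsDensity N (ε N)) →
      Tendsto (fun N : ℕ => ε N / ((Real.log N) ^ (-δ) * (Real.log (Real.log N)) ^ (-3 / 2 : ℝ) *
        Φ (Real.log (Real.log N) / Real.log 2))) atTop (𝓝 1) ∧
      ∀ K S : ℕ → ℕ, Tendsto K atTop atTop → Tendsto S atTop atTop →
      Tendsto (fun N : ℕ => ε N / ((Real.log N) ^ (-δ) * (Real.log (Real.log N)) ^ (-3 / 2 : ℝ) *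
        Ξ (K N) (S N) (Real.log (Real.log N) / Real.log 2))) atTop (𝓝 1) := by
  obtain ⟨Φ, hc, hp, hl, _, hb⟩ := Pool.Agent.EN.lim_abs Pool.Agent.EN.AA Pool.Agent.EN.al
    (fun ε hε => by
      obtain ⟨c0, h⟩ := Pool.Agent.EN.app hε
      obtain ⟨K0, h'⟩ := h c0 le_rfl c0 le_rfl c0 le_rfl
      exact ⟨_, h' K0 le_rfl K0 le_rfl⟩)
  obtain ⟨c, hc0, hcA⟩ := Pool.Agent.EN.AA_lower
  have hlow : ∀ x, c ≤ Φ x := hb c hcA
  have hpos : ∀ x, 0 < Φ x := fun x => lt_of_lt_of_le hc0 (hlow x)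
  have hX : ∀ ε > 0, ∃ K0 : ℕ, ∀ k ≥ K0, ∀ S ≥ K0, ∀ t : ℝ,
      |Φ t - Pool.Agent.EN2.Xi k S t| ≤ ε :=
    fun ε hε => Pool.Agent.EN2.phi_xi Φ hc hp hl hε
  obtain ⟨A, B, hA, hB, hAl, hBl, hint, hnear⟩ := Pool.Agent.EN2.fin_AB Φ hc hpos hX
  have hcst : Pool.Agent.EN2.c0 * Pool.Agent.EN2.PoiQ.p0 * (A * B) = cst A B := rfl
  rw [hcst] at hint hnear
  refine ⟨Φ, A, B, hc, hp, hpos, ?_, hA, hB, hAl, hBl, hint, hnear, ?_⟩
  · intro e he
    obtain ⟨K0, h⟩ := hX e he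
    exact ⟨K0, fun K hK S hS t => by rw [← Xi_eq]; exact h K hK S hS t⟩
  · intro e he
    refine ⟨final e he _ (ratio _ _ hc0 (Eventually.of_forall fun N => hlow _) hl), ?_⟩
    intro K S hK hS
    refine final e he _ (ratio _ _ (half_pos hc0) ?_ ?_)
    · obtain ⟨K0, h⟩ := hX (c / 2) (half_pos hc0)
      filter_upwards [hK.eventually_ge_atTop K0, hS.eventually_ge_atTop K0] with N h1 h2
      have h3 := (abs_le.1 (h _ h1 _ h2 (Real.log (Real.log N) / Real.log 2))).2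
      rw [Xi_eq] at h3
      have h4 := hlow (Real.log (Real.log N) / Real.log 2)
      linarith
    · have h1 : Tendsto (fun N : ℕ => Φ (Pool.Agent.EN.xx N) -
          Ξ (K N) (S N) (Pool.Agent.EN.xx N)) atTop (𝓝 0) := by
        rw [Metric.tendsto_atTop]
        intro e he
        obtain ⟨K0, h⟩ := hX (e / 2) (half_pos he)
        obtain ⟨N1, hN1⟩ := eventually_atTop.1 ((hK.eventually_ge_atTop K0).and
          (hS.eventually_ge_atTop K0))
        refine ⟨N1, fun N hN => ?_⟩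
        rw [Real.dist_eq, sub_zero, ← Xi_eq]
        exact (h _ (hN1 N hN).1 _ (hN1 N hN).2 _).trans_lt (half_lt_self he)
      have h2 := hl.add h1
      rw [add_zero] at h2
      refine h2.congr fun N => ?_
      show (Pool.Agent.EN.AA N - Φ (Pool.Agent.EN.xx N)) + (Φ (Pool.Agent.EN.xx N) -
          Ξ (K N) (S N) (Pool.Agent.EN.xx N)) = _
      rw [sub_add_sub_cancel]
      rfl

end Pool.Agent.Results.MP_ec0ede_nt.Explicit
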